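import Pool.Agent.P.MP_7d2be5_co.Main

namespace Pool.Agent.Results.MP_7d2be5_co.WeakDoubling
open Pool.Agent.WkD

theorem result : ∃ c : ℕ, ∀ (E : Type) [MetricSpace E] [CompactSpace E]
    (φ : E → EuclideanSpace ℝ (Fin 2)), Continuous φ → Function.Injective φ →
    ∀ δ : ℝ, 0 < δ → ∀ S : Set E, S.Nonempty →
    (∃ n : ℕ, ∀ Q : Finset E, ↑Q ⊆ S →
      (∀ x ∈ Q, ∀ y ∈ Q, x ≠ y → ENNReal.ofReal (2 * δ) < pathDist x y) → Q.card ≤ n) →
    ∃ v ∈ S, ∃ C : Finset E, C.card ≤ c ∧ ∀ s ∈ S, pathDist v s ≤ ENNReal.ofReal (2 * δ) →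
      ∃ x ∈ C, pathDist x s ≤ ENNReal.ofReal δ := by
  obtain ⟨c, hc⟩ := weak_doubling
  exact ⟨c, fun E _ _ φ h1 h2 => hc E (Complex.orthonormalBasisOneI.repr.symm ∘ φ)
    (Complex.orthonormalBasisOneI.repr.symm.continuous.comp h1)
    (Complex.orthonormalBasisOneI.repr.symm.injective.comp h2)⟩

end Pool.Agent.Results.MP_7d2be5_co.WeakDoubling
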